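import Pool.Agent.Helper39.DL.Goals

/-! # Project DL: a gap in the spectrum (LG) -/

namespace Pool.Agent.Helper96.DL

open Module
open scoped RealInnerProductSpace

/-- **LG.** -/
theorem linGap (E : Type) [NormedAddCommGroup E] [InnerProductSpace ℝ E] [FiniteDimensional ℝ E] :
    Pool.Agent.Helper39.DL.LinGap E := by
  intro δ 𝒟 hpos hanti
  set S : E →ₗ[ℝ] E := ∑ D ∈ 𝒟, ((Dᗮ.starProjection : E →L[ℝ] E) : E →ₗ[ℝ] E) with hS
  have hSa : ∀ x, S x = ∑ D ∈ 𝒟, Dᗮ.starProjection x := by
    intro x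
    simp [hS, LinearMap.sum_apply]
  have hsym : ∀ (D : Submodule ℝ E) (x y : E),
      ⟪Dᗮ.starProjection x, y⟫ = ⟪x, Dᗮ.starProjection y⟫ := by
    intro D x y
    exact Submodule.inner_starProjection_left_eq_right Dᗮ x y
  have hSym : S.IsSymmetric := by
    intro x y
    rw [hSa, hSa, sum_inner, inner_sum]
    exact Finset.sum_congr rfl fun D _ => hsym D x y
  have hidem : ∀ (D : Submodule ℝ E) (x : E),
      ⟪Dᗮ.starProjection x, x⟫ = ‖Dᗮ.starProjection x‖ ^ 2 := by
    intro D x
    have h1 : Dᗮ.starProjection (Dᗮ.starProjection x) = Dᗮ.starProjection x :=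
      Submodule.starProjection_eq_self_iff.2 (Submodule.starProjection_apply_mem _ _)
    rw [← real_inner_self_eq_norm_sq]
    conv_rhs => rw [hsym, h1, real_inner_comm]
  have hquad : ∀ v, ⟪S v, v⟫ = ∑ D ∈ 𝒟, ‖Dᗮ.starProjection v‖ ^ 2 := by
    intro v
    rw [hSa, sum_inner]
    exact Finset.sum_congr rfl fun D _ => hidem D v
  set b := hSym.eigenvectorBasis (n := finrank ℝ E) rfl with hb
  set μ := hSym.eigenvalues (n := finrank ℝ E) rfl with hμ
  have hSb : ∀ i, S (b i) = μ i • b i := by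
    intro i
    have h := hSym.apply_eigenvectorBasis (n := finrank ℝ E) rfl i
    exact h
  have hquad2 : ∀ v, ⟪S v, v⟫ = ∑ i, μ i * ⟪b i, v⟫ ^ 2 := by
    intro v
    rw [← b.sum_inner_mul_inner (S v) v]
    refine Finset.sum_congr rfl fun i _ => ?_
    have h1 : ⟪S v, b i⟫ = μ i * ⟪b i, v⟫ := by
      rw [hSym v (b i), hSb, inner_smul_right, real_inner_comm]
    rw [h1]
    ring
  have hnorm : ∀ v, ‖v‖ ^ 2 = ∑ i, ⟪b i, v⟫ ^ 2 := by
    intro v
    rw [← real_inner_self_eq_norm_sq, ← b.sum_inner_mul_inner v v]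
    refine Finset.sum_congr rfl fun i _ => ?_
    rw [real_inner_comm (b i) v]
    ring
  have hμ0 : ∀ i, 0 ≤ μ i := by
    intro i
    have h1 : ⟪S (b i), b i⟫ = μ i := by
      rw [hSb, inner_smul_left, real_inner_self_eq_norm_sq, b.orthonormal.1 i]
      simp
    rw [← h1, hquad]
    exact Finset.sum_nonneg fun D _ => sq_nonneg _
  have hmono : ∀ k l : ℕ, k ≤ l → δ l ≤ δ k := by
    intro k l hkl
    exact antitone_nat_of_succ_le hanti hkl
  obtain ⟨k, hk, hgap⟩ : ∃ k ≤ finrank ℝ E, ∀ i, ¬ (δ (k + 1) ^ 2 < μ i ∧ μ i ≤ δ k ^ 2) := by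
    by_contra hcon
    push Not at hcon
    have hcon' : ∀ k : Fin (finrank ℝ E + 1), ∃ i : Fin (finrank ℝ E),
        δ ((k : ℕ) + 1) ^ 2 < μ i ∧ μ i ≤ δ (k : ℕ) ^ 2 := by
      intro k
      exact hcon k (Nat.lt_succ_iff.1 k.2)
    choose f hf1 hf2 using hcon'
    have key : ∀ k l : Fin (finrank ℝ E + 1), (k : ℕ) < l → f k ≠ f l := by
      intro k l hkl heq
      have h1 := hf1 k
      have h2 := hf2 l
      rw [heq] at h1
      have h3 : δ (l : ℕ) ≤ δ ((k : ℕ) + 1) := hmono _ _ hkl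
      have h4 : δ (l : ℕ) ^ 2 ≤ δ ((k : ℕ) + 1) ^ 2 :=
        pow_le_pow_left₀ (hpos _).le h3 2
      linarith
    have hinj : Function.Injective f := by
      intro k l heq
      rcases lt_trichotomy (k : ℕ) l with h | h | h
      · exact absurd heq (key k l h)
      · exact Fin.ext h
      · exact absurd heq.symm (key l k h)
    have := Fintype.card_le_of_injective f hinj
    simp at this
  refine ⟨k, hk, Submodule.span ℝ (b '' {i | μ i ≤ δ (k + 1) ^ 2}), ?_, ?_⟩
  · intro v hv D hD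
    refine ⟨D.starProjection v, Submodule.starProjection_apply_mem _ _, ?_⟩
    have hperp : ∀ i, ¬ μ i ≤ δ (k + 1) ^ 2 → ⟪b i, v⟫ = 0 := by
      intro i hi
      have h1 : Submodule.span ℝ (b '' {i | μ i ≤ δ (k + 1) ^ 2}) ≤ (ℝ ∙ (b i))ᗮ := by
        rw [Submodule.span_le]
        rintro _ ⟨j, hj, rfl⟩
        rw [SetLike.mem_coe, Submodule.mem_orthogonal_singleton_iff_inner_right]
        have hij : i ≠ j := by
          rintro rfl
          exact hi hj
        exact b.orthonormal.2 hij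
      exact (Submodule.mem_orthogonal_singleton_iff_inner_right).1 (h1 hv)
    have h2 : ⟪S v, v⟫ ≤ δ (k + 1) ^ 2 * ‖v‖ ^ 2 := by
      rw [hquad2, hnorm, Finset.mul_sum]
      refine Finset.sum_le_sum fun i _ => ?_
      by_cases hi : μ i ≤ δ (k + 1) ^ 2
      · exact mul_le_mul_of_nonneg_right hi (sq_nonneg _)
      · rw [hperp i hi]
        simp
    have h3 : ‖Dᗮ.starProjection v‖ ^ 2 ≤ ⟪S v, v⟫ := by
      rw [hquad]
      exact Finset.single_le_sum (f := fun D : Submodule ℝ E => ‖Dᗮ.starProjection v‖ ^ 2)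
        (fun D _ => sq_nonneg _) hD
    have h4 : v - D.starProjection v = Dᗮ.starProjection v := by
      have h5 := Submodule.starProjection_add_starProjection_orthogonal (K := D) v
      rw [sub_eq_iff_eq_add, add_comm]
      exact h5.symm
    rw [h4]
    refine le_of_sq_le_sq ?_ (mul_nonneg (hpos _).le (norm_nonneg _))
    rw [mul_pow]
    exact h3.trans h2
  · intro u R hR hu
    have h1 : ⟪S u, u⟫ ≤ (𝒟.card : ℝ) * R ^ 2 := by
      rw [hquad]
      calc ∑ D ∈ 𝒟, ‖Dᗮ.starProjection u‖ ^ 2 ≤ ∑ D ∈ 𝒟, R ^ 2 := by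
            refine Finset.sum_le_sum fun D hD => ?_
            obtain ⟨w, hw, hwR⟩ := hu D hD
            have h2 : Dᗮ.starProjection w = 0 := by
              rw [Submodule.starProjection_apply_eq_zero_iff]
              simpa using hw
            have h3 : Dᗮ.starProjection u = Dᗮ.starProjection (u - w) := by
              rw [map_sub, h2, sub_zero]
            rw [h3]
            have h4 : ‖Dᗮ.starProjection (u - w)‖ ≤ ‖u - w‖ :=
              Submodule.norm_starProjection_apply_le _ _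
            exact pow_le_pow_left₀ (norm_nonneg _) (h4.trans hwR) 2
        _ = (𝒟.card : ℝ) * R ^ 2 := by simp
    classical
    set v : E := ∑ i ∈ Finset.univ.filter (fun i => μ i ≤ δ (k + 1) ^ 2), ⟪b i, u⟫ • b i with hv
    refine ⟨v, ?_, ?_⟩
    · rw [hv]
      refine Submodule.sum_mem _ fun i hi => Submodule.smul_mem _ _ ?_
      exact Submodule.subset_span ⟨i, (Finset.mem_filter.1 hi).2, rfl⟩
    · have hbv : ∀ j, ⟪b j, v⟫ = if μ j ≤ δ (k + 1) ^ 2 then ⟪b j, u⟫ else 0 := by
        intro j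
        rw [hv, inner_sum]
        have h5 : ∀ i, ⟪b j, ⟪b i, u⟫ • b i⟫ = if j = i then ⟪b j, u⟫ else 0 := by
          intro i
          rw [inner_smul_right, orthonormal_iff_ite.1 b.orthonormal j i]
          split_ifs with h
          · rw [h, mul_one]
          · rw [mul_zero]
        rw [Finset.sum_congr rfl fun i _ => h5 i, Finset.sum_ite_eq]
        simp
      have h6 : δ k ^ 2 * ‖u - v‖ ^ 2 ≤ ⟪S u, u⟫ := by
        rw [hquad2, hnorm, Finset.mul_sum]
        refine Finset.sum_le_sum fun i _ => ?_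
        rw [inner_sub_right, hbv]
        split_ifs with h
        · rw [sub_self]
          simp only [ne_eq, OfNat.ofNat_ne_zero, not_false_eq_true, zero_pow, mul_zero]
          exact mul_nonneg (hμ0 i) (sq_nonneg _)
        · rw [sub_zero]
          refine mul_le_mul_of_nonneg_right ?_ (sq_nonneg _)
          by_contra hcon
          exact hgap i ⟨not_le.1 h, (not_le.1 hcon).le⟩
      rw [le_div_iff₀ (hpos k)]
      refine le_of_sq_le_sq ?_ (mul_nonneg (Real.sqrt_nonneg _) hR)
      rw [mul_pow, mul_pow, Real.sq_sqrt (Nat.cast_nonneg _), mul_comm]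
      exact h6.trans h1

end Pool.Agent.Helper96.DL
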